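import Mathlib
import Pool.Agent.CLQ.ONE
import Pool.Agent.CLQD.D9
import Pool.Agent.CLQD.NoChord

/-!
# Iterated clique graphs of triangulated discs whose boundary vertices have degree four

The first five hypotheses are those of the question (a finite connected graph of minimum degree at
least four in which every link is a cycle of length at least four or a path, with some link a path
and Euler characteristic one).  A vertex with acyclic link is a boundary vertex.  The two further
hypotheses: every boundary vertex has degree four, and every interior vertex without boundary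
neighbours has degree at least six.
-/

set_option autoImplicit false
open SimpleGraph

namespace Pool.Agent.Results.MP_78824b_co.DiscRing

/-- Triangulated discs of minimum degree at least four in which every boundary vertex has degree
four, and every interior vertex without boundary neighbours has degree at least six, are clique
null. -/
theorem result :
  ∀ (V : Type) [Fintype V] [DecidableEq V] (G : SimpleGraph V) [DecidableRel G.Adj],
    G.Connected →
    (∀ v, 4 ≤ G.degree v) →
    (∀ v, ((G.induce (G.neighborSet v)).Connected ∧
            (∀ w, ((G.induce (G.neighborSet v)).neighborSet w).ncard = 2) ∧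
            4 ≤ (G.neighborSet v).ncard) ∨
          ((G.induce (G.neighborSet v)).IsTree ∧
            ∀ w, ((G.induce (G.neighborSet v)).neighborSet w).ncard ≤ 2)) →
    (∃ v, (G.induce (G.neighborSet v)).IsAcyclic) →
    (Fintype.card V : ℤ) - (G.edgeFinset.card : ℤ) + ((G.cliqueFinset 3).card : ℤ) = 1 →
    (∀ v, (G.induce (G.neighborSet v)).IsAcyclic → G.degree v = 4) →
    (∀ v, ¬ (G.induce (G.neighborSet v)).IsAcyclic →
      (∀ u, G.Adj v u → ¬ (G.induce (G.neighborSet u)).IsAcyclic) → 6 ≤ G.degree v) →
    ∃ n : ℕ, ∃ k : ℕ → ℕ, ∃ H : (i : ℕ) → SimpleGraph (Fin (k i)),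
      Nonempty (G ≃g H 0) ∧
      (∀ i < n, Nonempty
        ((SimpleGraph.fromRel
          (fun s t : {c : Finset (Fin (k i)) //
              (H i).IsClique (c : Set (Fin (k i))) ∧
              ∀ d : Finset (Fin (k i)), (H i).IsClique (d : Set (Fin (k i))) → c ⊆ d → d = c} =>
            (s.1 ∩ t.1).Nonempty)) ≃g H (i + 1))) ∧
      k n = 1 := by
  intro V _ _ G _ h0 h1 h2 h3 h4 h5 h6
  obtain ⟨hne, hn⟩ := CLQD.disc_null V G h0 h1 h2 h3 h4 (CLQD.nochord V G h0 h2 h4 h5) h6 _
    (CLQ.kside CLQ.thm_StA G)
  exact CLQ.frozen_of_null G hne hn

end Pool.Agent.Results.MP_78824b_co.DiscRing
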