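import Mathlib
import Pool.Agent.CLQ.SE

/-!
# Iterated clique graphs: removal of a tight strip

A strip in an arbitrary finite graph `G`: a walk `e 0, ..., e (s+2)` over a walk
`w 0, ..., w (s+1)`, with `w j` adjacent to `e j` and `e (j+1)`, such that the inner vertices
`e 1, ..., e (s+1)` have no further neighbours, and a walk `x 0, ..., x s` (repetitions allowed)
from `w 0` to `w (s+1)` such that `x j` is equal or adjacent to `w j` and `w (j+1)`.  The strip is
tight when six distances are at least `s+1`.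
-/

set_option autoImplicit false

namespace Pool.Agent.Results.MP_78824b_co.TightStrip

/-- Some iterated clique graph of `G` has exactly one vertex (the conclusion of the question). -/
def CliqueNull {V : Type} (G : SimpleGraph V) : Prop :=
    ∃ n : ℕ, ∃ k : ℕ → ℕ, ∃ H : (i : ℕ) → SimpleGraph (Fin (k i)),
      Nonempty (G ≃g H 0) ∧
      (∀ i < n, Nonempty
        ((SimpleGraph.fromRel
          (fun s t : {c : Finset (Fin (k i)) //
              (H i).IsClique (c : Set (Fin (k i))) ∧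
              ∀ d : Finset (Fin (k i)), (H i).IsClique (d : Set (Fin (k i))) → c ⊆ d → d = c} =>
            (s.1 ∩ t.1).Nonempty)) ≃g H (i + 1))) ∧
      k n = 1

/-- A tight strip of length `s`. -/
structure TightStripOf {V : Type} (G : SimpleGraph V) (s : ℕ) (e w x : ℕ → V) : Prop where
  one_le : 1 ≤ s
  e_walk : ∀ i, i ≤ s + 1 → G.Adj (e i) (e (i + 1))
  w_walk : ∀ i, i ≤ s → G.Adj (w i) (w (i + 1))
  e_w : ∀ i, i ≤ s + 1 → G.Adj (e i) (w i) ∧ G.Adj (e (i + 1)) (w i)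
  inner : ∀ i, 1 ≤ i → i ≤ s + 1 → ∀ v, G.Adj (e i) v →
    v = e (i - 1) ∨ v = e (i + 1) ∨ v = w (i - 1) ∨ v = w i
  x_zero : x 0 = w 0
  x_last : x s = w (s + 1)
  x_walk : ∀ i, i < s → x i = x (i + 1) ∨ G.Adj (x i) (x (i + 1))
  x_w : ∀ i, i ≤ s → (x i = w i ∨ G.Adj (x i) (w i)) ∧ (x i = w (i + 1) ∨ G.Adj (x i) (w (i + 1)))
  tight₁ : ∀ p : G.Walk (e 0) (e (s + 1)), s + 1 ≤ p.length
  tight₂ : ∀ p : G.Walk (e 1) (e (s + 2)), s + 1 ≤ p.length
  tight₃ : ∀ p : G.Walk (w 0) (e (s + 1)), s + 1 ≤ p.length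
  tight₄ : ∀ p : G.Walk (e 1) (w (s + 1)), s + 1 ≤ p.length
  tight₅ : ∀ p : G.Walk (e 0) (w s), s + 1 ≤ p.length
  tight₆ : ∀ p : G.Walk (w 1) (e (s + 2)), s + 1 ≤ p.length

open CLQ Set

theorem cliqueNull_iff {V : Type} [Finite V] (G : SimpleGraph V) (h : (univ : Set V).Nonempty) :
    CliqueNull G ↔ (tRG G h).Null :=
  ⟨fun ⟨n, k, H, h0, h1, h2⟩ => null_of_frozen n G h k H h0 h1 h2, frozen_of_null G h⟩

theorem ch_walk_len {V : Type} [Finite V] (G : SimpleGraph V) (h : (univ : Set V).Nonempty) :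
    ∀ (k : ℕ) (a b : (tRG G h).V), (tRG G h).Ch k a b → ∃ p : G.Walk a.1 b.1, p.length ≤ k := by
  intro k
  induction k with
  | zero =>
    intro a b hab
    have e : a = b := hab
    subst e
    exact ⟨SimpleGraph.Walk.nil, le_rfl⟩
  | succ k ih =>
    rintro a b ⟨c, hac, hcb⟩
    obtain ⟨p, hp⟩ := ih c b hcb
    have h1 : a.1 = c.1 ∨ G.Adj a.1 c.1 := hac
    rcases h1 with h1 | h1
    · exact ⟨p.copy h1.symm rfl, by rw [SimpleGraph.Walk.length_copy]; omega⟩
    · exact ⟨SimpleGraph.Walk.cons h1 p, by rw [SimpleGraph.Walk.length_cons]; omega⟩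

theorem toStrip {V : Type} [Finite V] {G : SimpleGraph V} {s : ℕ} {e w x : ℕ → V}
    (hS : TightStripOf G s e w x) (h : (univ : Set V).Nonempty) :
    Strip (tRG G h) s (fun i => ⟨e i, mem_univ _⟩) (fun i => ⟨w i, mem_univ _⟩)
      (fun i => ⟨x i, mem_univ _⟩) where
  s1 := hS.one_le
  ee i hi := Or.inr (hS.e_walk i hi)
  ww i hi := Or.inr (hS.w_walk i hi)
  ew i hi := Or.inr (hS.e_w i hi).1
  ew' i hi := Or.inr (hS.e_w i hi).2
  nb i v h1 h2 h3 := by
    have h4 : e i = v.1 ∨ G.Adj (e i) v.1 := h3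
    rcases h4 with h4 | h4
    · exact Or.inr (Or.inl (Subtype.ext h4.symm))
    · rcases hS.inner i h1 h2 v.1 h4 with h5 | h5 | h5 | h5
      · exact Or.inl (Subtype.ext h5)
      · exact Or.inr (Or.inr (Or.inl (Subtype.ext h5)))
      · exact Or.inr (Or.inr (Or.inr (Or.inl (Subtype.ext h5))))
      · exact Or.inr (Or.inr (Or.inr (Or.inr (Subtype.ext h5))))
  x0 := Subtype.ext hS.x_zero
  xs := Subtype.ext hS.x_last
  xx i hi := hS.x_walk i hi
  xw i h1 h2 := by
    have h3 := hS.x_w (i - 1) (by omega)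
    rw [show i - 1 + 1 = i by omega] at h3
    exact h3
  t1 k hk := by
    obtain ⟨p, hp⟩ := ch_walk_len G h k _ _ hk
    exact (hS.tight₁ p).trans hp
  t2 k hk := by
    obtain ⟨p, hp⟩ := ch_walk_len G h k _ _ hk
    exact (hS.tight₂ p).trans hp
  t3 k hk := by
    obtain ⟨p, hp⟩ := ch_walk_len G h k _ _ hk
    exact (hS.tight₃ p).trans hp
  t4 k hk := by
    obtain ⟨p, hp⟩ := ch_walk_len G h k _ _ hk
    exact (hS.tight₄ p).trans hp
  t5 k hk := by
    obtain ⟨p, hp⟩ := ch_walk_len G h k _ _ hk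
    exact (hS.tight₅ p).trans hp
  t6 k hk := by
    obtain ⟨p, hp⟩ := ch_walk_len G h k _ _ hk
    exact (hS.tight₆ p).trans hp

/-- Deleting the inner vertices of a tight strip does not change clique nullity, in an arbitrary
finite graph. -/
theorem result : ∀ (V : Type) [Finite V] (G : SimpleGraph V) (s : ℕ) (e w x : ℕ → V),
    TightStripOf G s e w x →
    (CliqueNull G ↔ CliqueNull (G.induce {v | ∀ i, 1 ≤ i → i ≤ s + 1 → v ≠ e i})) := by
  intro V _ G s e w x hS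
  have hne : (univ : Set V).Nonempty := ⟨e 0, mem_univ _⟩
  have hS' := toStrip hS hne
  set A : Set V := {v | ∀ i, 1 ≤ i → i ≤ s + 1 → v ≠ e i} with hA
  have hx : x 0 ∈ A := by
    intro i h1 h2 h3
    refine hS'.x_ne (j := 0) (by omega) h1 h2 (Subtype.ext h3)
  have hneA : (univ : Set A).Nonempty := ⟨⟨x 0, hx⟩, mem_univ _⟩
  rw [cliqueNull_iff G hne, cliqueNull_iff (G.induce A) hneA]
  have hi : ∀ a b : (tRG (G.induce A) hneA).V, (tRG (G.induce A) hneA).r a b ↔
      (tRG G hne).r ⟨a.1.1, mem_univ _⟩ ⟨b.1.1, mem_univ _⟩ := by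
    intro a b
    show (a.1 = b.1 ∨ G.Adj a.1.1 b.1.1) ↔ (a.1.1 = b.1.1 ∨ G.Adj a.1.1 b.1.1)
    rw [Subtype.ext_iff]
  have him : ∀ v : (tRG G hne).V, (∀ j, 1 ≤ j → j ≤ s + 1 → v ≠ ⟨e j, mem_univ _⟩) ↔
      ∃ a : (tRG (G.induce A) hneA).V, (⟨a.1.1, mem_univ _⟩ : (tRG G hne).V) = v := by
    intro v
    constructor
    · intro h
      exact ⟨⟨⟨v.1, fun i h1 h2 h3 => h i h1 h2 (Subtype.ext h3)⟩, mem_univ _⟩, rfl⟩
    · rintro ⟨a, ha⟩ j h1 h2 h3
      have h4 : a.1.1 = e j := by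
        have h5 : (⟨a.1.1, mem_univ _⟩ : (tRG G hne).V) = ⟨e j, mem_univ _⟩ := ha.trans h3
        exact Subtype.mk.inj h5
      exact a.1.2 j h1 h2 h4
  constructor
  · intro h
    refine strip_null_conv hS' (M' := tRG (G.induce A) hneA) (fun a => ⟨a.1.1, mem_univ _⟩) ?_ hi
      him h
    intro a b hab
    have hab' : (⟨a.1.1, mem_univ _⟩ : (tRG G hne).V) = ⟨b.1.1, mem_univ _⟩ := hab
    have h5 : a.1.1 = b.1.1 := Subtype.mk.inj hab'
    exact Subtype.ext (Subtype.ext h5)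
  · intro h
    exact strip_null thm_StA hS' (M' := tRG (G.induce A) hneA) (fun a => ⟨a.1.1, mem_univ _⟩) hi
      (fun v hv => (him v).mp hv) h

end Pool.Agent.Results.MP_78824b_co.TightStrip
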